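import Mathlib

namespace Pool.Agent.Results.MP_1adc52_al.OmitTwo

/-- `A^h = {a_1 ⋯ a_h : a_i ∈ A}`. -/
def pw {G : Type*} [Group G] (A : Set G) (h : ℕ) : Set G :=
  {g | ∃ l : List G, l.length = h ∧ (∀ a ∈ l, a ∈ A) ∧ l.prod = g}

/-- The product intersection set `H(A_q)`, a set of positive integers. -/
def Hset {G : Type*} [Group G] (A : ℕ → Set G) : Set ℕ :=
  {h | 1 ≤ h ∧ pw (⋂ q, A q) h = ⋂ q, pw (A q) h}

section
variable {G : Type*} [Group G]

lemma exists_x [Infinite G] : ∃ x : G, ∀ g : G, g ≠ x →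
    {b : G | b * b ≠ x ∧ (b⁻¹ * g) * (b⁻¹ * g) ≠ x ∧ b⁻¹ * g * b ≠ x}.Infinite := by
  by_cases hA : ∃ x : G, {a : G | a * a = x}.Finite
  · obtain ⟨x, hx⟩ := hA
    refine ⟨x, fun g hg => ?_⟩
    have h1 : {b : G | b⁻¹ * g * b ≠ x}.Infinite := by
      by_cases hD : {b : G | b⁻¹ * g * b = x}.Finite
      · exact hD.infinite_compl
      · have hD' : {b : G | b⁻¹ * g * b = x}.Infinite := hD
        obtain ⟨b0, hb0⟩ := hD'.nonempty
        refine (hD'.image (f := fun b => b * b0⁻¹) (mul_left_injective _).injOn).mono ?_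
        rintro _ ⟨b, hb, rfl⟩ h
        simp only [Set.mem_setOf_eq] at hb hb0
        apply hg
        rw [← h]
        have e : (b * b0⁻¹)⁻¹ * g * (b * b0⁻¹) = b0 * (b⁻¹ * g * b) * b0⁻¹ := by group
        rw [e, hb, ← hb0]
        group
    have h2 : {b : G | (b⁻¹ * g) * (b⁻¹ * g) = x}.Finite := by
      refine hx.preimage (f := fun b => b⁻¹ * g) ?_
      intro a _ b _ h
      simpa using h
    refine ((h1.diff hx).diff h2).mono ?_
    rintro b ⟨⟨p, q⟩, r⟩
    exact ⟨q, r, p⟩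
  · push Not at hA
    refine ⟨1, fun g hg hE => ?_⟩
    have key : ∀ z : G, z * g * z = g := by
      intro z
      by_cases hz : z = 1
      · simp [hz]
      · have hE' := hE.preimage (f := fun b : G => b⁻¹) inv_injective.injOn
        obtain ⟨a, ⟨ha, h1⟩, h2⟩ := (((hA z).diff hE).diff hE').nonempty
        simp only [Set.mem_setOf_eq, Set.mem_preimage, not_and, not_not, inv_inv] at ha h1 h2
        have c1 : a⁻¹ * g * a ≠ 1 := by
          intro h; apply hg
          have : g = a * (a⁻¹ * g * a) * a⁻¹ := by group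
          rw [this, h]; group
        have c2 : a * g * a⁻¹ ≠ 1 := by
          intro h; apply hg
          have : g = a⁻¹ * (a * g * a⁻¹) * a := by group
          rw [this, h]; group
        have e1 : (a⁻¹ * g) * (a⁻¹ * g) = 1 := by
          by_contra h
          exact c1 (h1 (by rw [ha]; exact hz) h)
        have e2 : (a * g) * (a * g) = 1 := by
          by_contra h
          refine c2 (h2 ?_ h)
          rw [← mul_inv_rev, ha]; simpa using hz
        have e3 : a * g * a = a⁻¹ * g * a⁻¹ := by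
          have : (a * g * a) * g = (a⁻¹ * g * a⁻¹) * g := by
            rw [mul_assoc (a * g), e2, mul_assoc (a⁻¹ * g), e1]
          exact mul_right_cancel this
        calc z * g * z = a * (a * g * a) * a := by rw [← ha]; group
          _ = g := by rw [e3]; group
    have key2 : ∀ w : G, w * w = g * g := by
      intro w
      have := key (w * g⁻¹)
      calc w * w = (w * g⁻¹ * g * (w * g⁻¹)) * g := by group
        _ = g * g := by rw [this]
    obtain ⟨a, ha⟩ := (hA g).nonempty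
    simp only [Set.mem_setOf_eq] at ha
    apply hg
    rw [← ha, key2 a, ← key2 1, mul_one]

def Free (x : G) (P : Set G) : Prop := ∀ a ∈ P, ∀ b ∈ P, a * b ≠ x

def Bad (x : G) (P : Set G) : Set G := {y | ∃ p ∈ P, p * y = x ∨ y * p = x}

lemma bad_finite (x : G) {P : Set G} (hP : P.Finite) : (Bad x P).Finite := by
  refine ((hP.image fun p => p⁻¹ * x).union (hP.image fun p => x * p⁻¹)).subset ?_
  rintro y ⟨p, hp, h | h⟩
  · exact Or.inl ⟨p, hp, by rw [← h]; group⟩
  · exact Or.inr ⟨p, hp, by rw [← h]; group⟩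

lemma free_insert {x y : G} {P : Set G} (hP : Free x P) (hy : y * y ≠ x) (hb : y ∉ Bad x P) :
    Free x (insert y P) := by
  rintro a (rfl | ha) b (rfl | hb')
  · exact hy
  · exact fun h => hb ⟨b, hb', Or.inr h⟩
  · exact fun h => hb ⟨a, ha, Or.inl h⟩
  · exact hP a ha b hb'

lemma step [Infinite G] {x : G} (hx : ∀ g : G, g ≠ x →
    {b : G | b * b ≠ x ∧ (b⁻¹ * g) * (b⁻¹ * g) ≠ x ∧ b⁻¹ * g * b ≠ x}.Infinite)
    (P : {P : Set G // P.Finite ∧ Free x P}) (g : G) :
    ∃ Q : {P : Set G // P.Finite ∧ Free x P}, P.1 ⊆ Q.1 ∧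
      ∃ a ∈ Q.1, ∃ b ∈ Q.1, ∃ c ∈ Q.1, a * b * c = g := by
  obtain ⟨P, hP, hF⟩ := P
  obtain ⟨g0, hg0⟩ := exists_ne x
  obtain ⟨a, ⟨⟨ha, -⟩, ha1⟩, ha2⟩ :=
    (((hx g0 hg0).diff (bad_finite x hP)).diff (Set.finite_singleton (g * x⁻¹))).nonempty
  have hg' : a⁻¹ * g ≠ x := by
    intro h; apply ha2
    rw [Set.mem_singleton_iff, ← h]; group
  have hP1 : (insert a P).Finite := hP.insert a
  have hF1 := free_insert hF ha ha1
  have hB := bad_finite x hP1
  have hB' : {b : G | b⁻¹ * (a⁻¹ * g) ∈ Bad x (insert a P)}.Finite := by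
    refine hB.preimage (f := fun b => b⁻¹ * (a⁻¹ * g)) ?_
    intro s _ t _ h
    simpa using h
  obtain ⟨b, ⟨⟨hb1, hb2, hb3⟩, hb4⟩, hb5⟩ := (((hx _ hg').diff hB).diff hB').nonempty
  have hF2 := free_insert hF1 hb1 hb4
  have hF3 : Free x (insert (b⁻¹ * (a⁻¹ * g)) (insert b (insert a P))) := by
    refine free_insert hF2 hb2 ?_
    rintro ⟨p, rfl | hp, h⟩
    · rcases h with h | h
      · apply hg'; rw [← h]; group
      · exact hb3 h
    · exact hb5 ⟨p, hp, h⟩
  refine ⟨⟨_, (hP1.insert b).insert _, hF3⟩, ?_, a, by simp, b, by simp, _, Set.mem_insert _ _,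
    by group⟩
  intro y hy
  simp [hy]

lemma exists_A [Infinite G] [Countable G] : ∃ (x : G) (A : Set G), Free x A ∧
    ∀ g : G, ∃ a ∈ A, ∃ b ∈ A, ∃ c ∈ A, a * b * c = g := by
  obtain ⟨x, hx⟩ := exists_x (G := G)
  obtain ⟨e, he⟩ := exists_surjective_nat G
  choose F hF using step hx
  let P : ℕ → {P : Set G // P.Finite ∧ Free x P} := fun n =>
    Nat.rec ⟨∅, Set.finite_empty, fun _ h => h.elim⟩ (fun n Q => F Q (e n)) n
  have hP : ∀ n, P (n + 1) = F (P n) (e n) := fun _ => rfl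
  have hmono : Monotone fun n => (P n).1 :=
    monotone_nat_of_le_succ fun n => by rw [hP]; exact (hF _ _).1
  refine ⟨x, ⋃ n, (P n).1, ?_, ?_⟩
  · intro a ha b hb
    obtain ⟨n, hn⟩ := Set.mem_iUnion.1 ha
    obtain ⟨m, hm⟩ := Set.mem_iUnion.1 hb
    exact (P (max n m)).2.2 a (hmono (le_max_left _ _) hn) b (hmono (le_max_right _ _) hm)
  · intro g
    obtain ⟨n, rfl⟩ := he g
    obtain ⟨a, ha, b, hb, c, hc, h⟩ := (hF (P n) (e n)).2
    rw [← hP] at ha hb hc
    exact ⟨a, Set.mem_iUnion.2 ⟨n + 1, ha⟩, b, Set.mem_iUnion.2 ⟨n + 1, hb⟩, c,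
      Set.mem_iUnion.2 ⟨n + 1, hc⟩, h⟩

/-- transfer to an arbitrary infinite group through a countable infinite subgroup -/
lemma exists_KA [Infinite G] : ∃ (K : Subgroup G) (x : G) (A : Set G) (r : ℕ → G),
    Function.Injective r ∧ (∀ n, r n ∈ K) ∧ x ∈ K ∧ A ⊆ K ∧ Free x A ∧
    ∀ g ∈ K, ∃ a ∈ A, ∃ b ∈ A, ∃ c ∈ A, a * b * c = g := by
  let r : ℕ ↪ G := Infinite.natEmbedding G
  let K : Subgroup G := (FreeGroup.lift r).range
  have hr : ∀ n, r n ∈ K := fun n => ⟨FreeGroup.of n, by simp⟩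
  haveI : Countable K := (Set.countable_range (FreeGroup.lift r)).to_subtype
  haveI : Infinite K := Infinite.of_injective (fun n => (⟨r n, hr n⟩ : K))
    fun a b h => r.injective (congrArg Subtype.val h)
  obtain ⟨x, A, hF, hA⟩ := exists_A (G := K)
  refine ⟨K, x, Subtype.val '' A, r, r.injective, hr, x.2, ?_, ?_, ?_⟩
  · rintro _ ⟨a, -, rfl⟩; exact a.2
  · rintro _ ⟨a, ha, rfl⟩ _ ⟨b, hb, rfl⟩ h
    exact hF a ha b hb (Subtype.ext h)
  · intro g hg
    obtain ⟨a, ha, b, hb, c, hc, h⟩ := hA ⟨g, hg⟩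
    exact ⟨a, ⟨a, ha, rfl⟩, b, ⟨b, hb, rfl⟩, c, ⟨c, hc, rfl⟩, congrArg Subtype.val h⟩

lemma pw_mono {A B : Set G} (h : A ⊆ B) (n : ℕ) : pw A n ⊆ pw B n := by
  rintro g ⟨l, h1, h2, h3⟩
  exact ⟨l, h1, fun a ha => h (h2 a ha), h3⟩

lemma pw_one (A : Set G) : pw A 1 = A := by
  ext g
  constructor
  · rintro ⟨l, h1, h2, rfl⟩
    obtain ⟨a, rfl⟩ := List.length_eq_one_iff.1 h1
    simpa using h2
  · intro hg
    exact ⟨[g], rfl, by simpa using hg, by simp⟩

end

theorem result (G : Type*) [Group G] [Infinite G] :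
    ∃ A : ℕ → Set G, (∀ q, A (q + 1) ⊆ A q) ∧ {q | A (q + 1) ≠ A q}.Infinite ∧
      Hset A = {h | 1 ≤ h ∧ h ≠ 2} ∧ Hset A ≠ {1} ∧ Hset A ≠ {h | 1 ≤ h} := by
  obtain ⟨K, x, A, r, hr, hrK, hxK, hAK, hF, hA⟩ := exists_KA (G := G)
  let B : ℕ → Set G := fun q => A ∪ {y | ∃ n, q ≤ n ∧ (y = r n ∨ y = (r n)⁻¹ * x)}
  have hdec : ∀ q, B (q + 1) ⊆ B q := by
    rintro q y (h | ⟨n, hn, h⟩)
    · exact Or.inl h
    · exact Or.inr ⟨n, by omega, h⟩
  have hBK : ∀ q, B q ⊆ K := by
    rintro q y (h | ⟨n, -, rfl | rfl⟩)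
    · exact hAK h
    · exact hrK n
    · exact K.mul_mem (K.inv_mem (hrK n)) hxK
  have hint : ⋂ q, B q = A := by
    refine Set.Subset.antisymm ?_ (Set.subset_iInter fun q => Set.subset_union_left)
    intro y hy
    by_contra hyA
    have hfin : {n | y = r n ∨ y = (r n)⁻¹ * x}.Finite := by
      have h1 := (Set.finite_singleton y).preimage hr.injOn
      have h2 := (Set.finite_singleton (x * y⁻¹)).preimage hr.injOn
      refine (h1.union h2).subset ?_
      rintro n (h | h)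
      · exact Or.inl (by simp [h])
      · refine Or.inr ?_
        simp only [Set.mem_preimage, Set.mem_singleton_iff]
        rw [h]; group
    obtain ⟨N, hN⟩ := hfin.bddAbove
    rcases Set.mem_iInter.1 hy (N + 1) with h | ⟨n, hn, h⟩
    · exact hyA h
    · have := hN h
      omega
  have hx2 : ∀ q, x ∈ pw (B q) 2 := by
    intro q
    refine ⟨[r q, (r q)⁻¹ * x], rfl, ?_, by simp⟩
    intro a ha
    simp only [List.mem_cons, List.not_mem_nil, or_false] at ha
    exact Or.inr ⟨q, le_rfl, ha⟩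
  have hx2' : x ∉ pw A 2 := by
    rintro ⟨l, h1, h2, h3⟩
    obtain ⟨a, b, rfl⟩ := List.length_eq_two.1 h1
    exact hF a (h2 a (by simp)) b (h2 b (by simp)) (by simpa using h3)
  have hbig : ∀ n, ∀ g ∈ K, g ∈ pw A (n + 3) := by
    intro n
    induction n with
    | zero =>
      intro g hg
      obtain ⟨a, ha, b, hb, c, hc, h⟩ := hA g hg
      exact ⟨[a, b, c], rfl, by simp [ha, hb, hc], by simp [← h, mul_assoc]⟩
    | succ n ih =>
      intro g hg
      obtain ⟨a, ha, -⟩ := hA g hg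
      obtain ⟨l, h1, h2, h3⟩ := ih (a⁻¹ * g) (K.mul_mem (K.inv_mem (hAK ha)) hg)
      refine ⟨a :: l, by simp [h1], ?_, by simp [h3]⟩
      intro y hy
      rcases List.mem_cons.1 hy with rfl | hy
      · exact ha
      · exact h2 y hy
  have hH : Hset B = {h | 1 ≤ h ∧ h ≠ 2} := by
    ext h
    simp only [Hset, Set.mem_setOf_eq, hint]
    refine and_congr_right fun h1 => ⟨?_, fun h2 => ?_⟩
    · rintro e rfl
      exact hx2' (e ▸ Set.mem_iInter.2 hx2)
    · by_cases h3 : h = 1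
      · subst h3
        simp only [pw_one, hint]
      · obtain ⟨n, rfl⟩ : ∃ n, h = n + 3 := ⟨h - 3, by omega⟩
        refine Set.Subset.antisymm
          (Set.subset_iInter fun q => pw_mono Set.subset_union_left _) ?_
        intro g hg
        obtain ⟨l, -, e2, rfl⟩ := Set.mem_iInter.1 hg 0
        exact hbig n _ (K.list_prod_mem fun y hy => hBK 0 (e2 y hy))
  refine ⟨B, hdec, ?_, hH, ?_, ?_⟩
  · intro hfin
    obtain ⟨N, hN⟩ := hfin.bddAbove
    have hconst : ∀ m, B (N + 1 + m) = B (N + 1) := by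
      intro m
      induction m with
      | zero => rfl
      | succ m ih =>
        rw [← ih]
        by_contra hne
        have := hN (a := N + 1 + m) hne
        omega
    have hanti : Antitone B := antitone_nat_of_succ_le hdec
    have : B (N + 1) ⊆ A := by
      rw [← hint]
      refine Set.subset_iInter fun q => ?_
      rw [← hconst q]
      exact hanti (by omega)
    exact hx2' (pw_mono this 2 (hx2 _))
  · rw [hH]
    intro e
    have : (3 : ℕ) ∈ ({1} : Set ℕ) := e ▸ (by simp)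
    simp at this
  · rw [hH]
    intro e
    have : (2 : ℕ) ∈ {h : ℕ | 1 ≤ h ∧ h ≠ 2} := e ▸ (by simp)
    simp at this

end Pool.Agent.Results.MP_1adc52_al.OmitTwo
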